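import Pool.Agent.Lib.DN.Ded

/-!
# Theorem DN, parts 0 and L: intermediate statements (all proved in `DN/O/`)
-/

set_option autoImplicit false

open scoped Pointwise nonZeroDivisors

noncomputable section

namespace Pool.Agent.DN

open Pool.Agent.MuZ Pool.Agent.FW NumberField IsDedekindDomain
open Pool.Agent.DI (io ofC io_inj exists_io io_ofC ofC_io VP MP UP TP ex sqr sqr_sq kap)

/-- Module `O7a` (see `DK/O/Spec.lean` for the proof). -/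
def S_O7a : Prop :=
  ∀ (k t : ℕ) [SqN k t] (N : ℕ), 0 < N →
    (∀ a : Ideal (OO k t), Ray N a a) ∧ (∀ a b : Ideal (OO k t), Ray N a b → Ray N b a) ∧
    (∀ a b c : Ideal (OO k t), Ray N a b → Ray N b c → Ray N a c) ∧
    (∀ a b c d : Ideal (OO k t), Ray N a b → Ray N c d → Ray N (a * c) (b * d)) ∧
    (∀ a b c : Ideal (OO k t), c ≠ ⊥ → PrI c N → Ray N (a * c) (b * c) → Ray N a b) ∧
    (∀ a b : Ideal (OO k t), Ray N a b → (a ≠ ⊥ ↔ b ≠ ⊥) ∧ (PrI a N ↔ PrI b N)) ∧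
    (∀ (M : ℕ) (a b : Ideal (OO k t)), M ∣ N → Ray N a b → Ray M a b) ∧
    (∀ v u : OO k t, v ≠ 0 → u ≠ 0 → Cop v N → Cop u N →
      (Ray N (sp v) (sp u) ↔ ∃ e : OO k t, Nm e = 1 ∧ (N : OO k t) ∣ v - e * u)) ∧
    ∀ a : Ideal (OO k t), a ≠ ⊥ → PrI a N → ∃ a' : Ideal (OO k t), a' ≠ ⊥ ∧ PrI a' N ∧ Ray N (a * a') ⊤

/-- Module `O7b` (see `DK/O/Spec.lean` for the proof). -/
def S_O7b : Prop := ∀ (k t : ℕ) [SqN k t] (N : ℕ), 0 < N → ∃ R : Finset (Ideal (OO k t)), IsRC N R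

/-- Module `O8a` (see `DK/O/Spec.lean` for the proof). -/
def S_O8a : Prop :=
  ∀ (k t : ℕ) [SqN k t] (N M : ℕ), 0 < N → 0 < M → ∀ β₀ : OO k t, Cop β₀ N →
    ∃ β : OO k t, β ≠ 0 ∧ (N : OO k t) ∣ β - β₀ ∧ Cop β (N * M) ∧ IsCoprime β.re β.im

/-- Module `O8b` (see `DK/O/Spec.lean` for the proof). -/
def S_O8b : Prop :=
  ∀ (k t : ℕ) [SqN k t] (β : OO k t), β ≠ 0 → IsCoprime β.re β.im → ∀ C : Ideal (OO k t) → Prop, C ⊤ →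
    (∀ a b, C a → C b → C (a * b)) → (∀ (q : Ideal (OO k t)) (l : ℕ), Deg1 q l → (l : ℤ) ∣ Nm β → C q) →
    C (sp β)

/-- Module `L0` (see `DK/O/Spec.lean` for the proof). -/
def S_L0 : Prop :=
  ∀ (k t : ℕ) [SqN k t] (I : Ideal (OO k t)), I ≠ ⊥ →
    (∃ n : ℕ, 0 < n ∧ (n : OO k t) ∈ I) ∧ (∀ n : ℕ, 0 < n → (n : OO k t) ∈ I → ∃ c : Ideal (OO k t),
      c ≠ ⊥ ∧ I * c = sp (n : OO k t)) ∧
    ∀ (n : ℕ) (c : Ideal (OO k t)), 0 < n → I * c = sp (n : OO k t) →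
      ∀ z : ℂ, z ∈ Lam I ↔ ∃ v ∈ c, z = toC v / n

/-- Units. -/
def S_O10 : Prop :=
  ∀ (k t : ℕ) [SqN k t], (∀ e : OO k t, IsUnit e ↔ Nm e = 1) ∧
    (∀ (N : ℕ) (e : OO k t), 3 ≤ N → Nm e = 1 → (N : OO k t) ∣ e - 1 → e = 1) ∧
    (∀ (N f : ℕ) (v u : OO k t), 0 < N → f ∣ N → 3 ≤ f → v ≠ 0 → u ≠ 0 → Cop v N → Cop u N →
      (f : OO k t) ∣ v - 1 → (f : OO k t) ∣ u - 1 → Ray N (sp v) (sp u) → (N : OO k t) ∣ v - u) ∧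
    ∀ (N : ℕ) (v : OO k t) (a a' : Ideal (OO k t)), 0 < N → Ray N a a' → v ≠ 0 → Cop v N →
      (N : OO k t) ∣ v - 1 → Ray N (sp v * a) a'

/-- Coprimality, more. -/
def S_O11 : Prop :=
  ∀ (k t : ℕ) [SqN k t], (∀ (N M : ℕ) (a : Ideal (OO k t)), M ∣ N → PrI a N → PrI a M) ∧
    (∀ (N : ℕ) (a : Ideal (OO k t)), PrI a (15 * N) ↔ PrI a 15 ∧ PrI a N) ∧
    (∀ N : ℕ, PrI (⊤ : Ideal (OO k t)) N) ∧
    (∀ (N : ℕ) (a b : Ideal (OO k t)), a ≤ b → PrI a N → PrI b N) ∧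
    (∀ (N : ℕ) (v u : OO k t), (N : OO k t) ∣ v - u → Cop v N → Cop u N) ∧
    ∀ (N N' : ℕ) (v v' : OO k t), 0 < N → 0 < N' → N.Coprime N' →
      ∃ u : OO k t, u ≠ 0 ∧ (N : OO k t) ∣ u - v ∧ (N' : OO k t) ∣ u - v'

/-- The ideal `(2)`, the inert case, more. -/
def S_O12 : Prop :=
  ∀ (k t : ℕ) [Ine k t], sp (2 : OO k t) ≠ ⊥ ∧ (sp (2 : OO k t)).IsMaximal ∧
    (∀ v : OO k t, (2 : OO k t) ∣ v ∨ (2 : OO k t) ∣ v - 1 ∨ (2 : OO k t) ∣ v - wI k t ∨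
      (2 : OO k t) ∣ v - (1 + wI k t)) ∧
    (∀ v : OO k t, (2 : OO k t) ∣ v ^ 4 - v) ∧
    ∀ b : Ideal (OO k t), PrI b 2 ↔ ¬ b ≤ sp (2 : OO k t)

/-- The `N`-torsion points of `ℂ / Lam b`, `b` prime to `N`. -/
def S_L6a : Prop :=
  ∀ (k t : ℕ) [SqN k t] (N : ℕ) (b : Ideal (OO k t)), 0 < N → b ≠ ⊥ → PrI b N →
    (∀ v : OO k t, toC v / N ∈ Lam b ↔ (N : OO k t) ∣ v) ∧
    (∀ z : ℂ, (N : ℂ) * z ∈ Lam b → ∃ v : OO k t, z - toC v / N ∈ Lam b) ∧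
    ∀ (α : OO k t) (z : ℂ), (N : OO k t) ∣ α - 1 → (N : ℂ) * z ∈ Lam b → toC α * z - z ∈ Lam b

/-- The points of order `2` (inert case), `b` prime to `2`. -/
def S_L7 : Prop :=
  ∀ (k t : ℕ) [Ine k t] (b : Ideal (OO k t)), b ≠ ⊥ → PrI b 2 →
    (1 / 2 : ℂ) ∉ Lam b ∧ wC k t / 2 ∉ Lam b ∧ (1 + wC k t) / 2 ∉ Lam b ∧
    ∀ z : ℂ, 2 * z ∈ Lam b → z ∈ Lam b ∨ z - 1 / 2 ∈ Lam b ∨ z - wC k t / 2 ∈ Lam b ∨
      z - (1 + wC k t) / 2 ∈ Lam b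

end Pool.Agent.DN
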