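import Pool.Agent.Lib.DN.O.Spec

/-!
# Theorem DN, module L2: basic properties of the lattices
-/

set_option autoImplicit false

open scoped Pointwise nonZeroDivisors

noncomputable section

namespace Pool.Agent.DN

open Pool.Agent.MuZ Pool.Agent.FW NumberField IsDedekindDomain

/-- `z ∈ Lam (cjI b)` if and only if `conj z ∈ Lam b`. -/
private theorem L2_conj (h3 : S_O3) {k t : ℕ} [SqN k t] (b : Ideal (OO k t)) (z : ℂ) :
    z ∈ Lam (cjI b) ↔ (starRingEnd ℂ) z ∈ Lam b := by
  have h := (h3 k t).1 b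
  constructor
  · intro hz v hv
    obtain ⟨u, hu⟩ := hz (cjO v) ((h (cjO v)).2 (by rw [cjO_cjO]; exact hv))
    refine ⟨cjO u, ?_⟩
    have e := congrArg (starRingEnd ℂ) hu
    rwa [map_mul, conj_toC, conj_toC, cjO_cjO] at e
  · intro hz v hv
    obtain ⟨u, hu⟩ := hz (cjO v) ((h v).1 hv)
    refine ⟨cjO u, ?_⟩
    have e := congrArg (starRingEnd ℂ) hu
    rwa [map_mul, conj_toC, conj_toC, cjO_cjO, Complex.conj_conj] at e

theorem sL2 (h3 : S_O3) : S_L2 := by
  intro k t _
  refine ⟨fun b => ⟨lam_zero b, fun z z' h h' => lam_add h h', fun z h => lam_neg h,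
      fun v z h => lam_mul v h⟩, fun a b z => lam_prod, fun a b z h => lam_mono h,
    fun α b z => lam_sp, fun z => lam_top, fun b z hb h => tor_lam hb h,
    fun b z _ => L2_conj h3 b z, fun b z hb => tor_iff hb⟩

end Pool.Agent.DN
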