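import Pool.Agent.Lib.DN.O.Spec

/-!
# Theorem DN, module L4: annihilators and primary decomposition
-/

set_option autoImplicit false

noncomputable section

namespace Pool.Agent.DN

variable {k t : ℕ}

/-- The annihilator of `z` modulo `Lam b`. -/
private def L4_ann [SqN k t] (b : Ideal (OO k t)) (z : ℂ) : Ideal (OO k t) where
  carrier := {v | toC v * z ∈ Lam b}
  zero_mem' := by
    change toC 0 * z ∈ Lam b
    rw [toC_zero, zero_mul]
    exact lam_zero b
  add_mem' := by
    intro v u hv hu
    change toC (v + u) * z ∈ Lam b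
    rw [toC_add, add_mul]
    exact lam_add hv hu
  smul_mem' := by
    intro u v hv
    change toC (u * v) * z ∈ Lam b
    rw [toC_mul, mul_assoc]
    exact lam_mul u hv

theorem sL4 : S_L4 := by
  intro k t _ b hb
  refine ⟨?_, ?_⟩
  · intro z hz
    refine ⟨L4_ann b z, ?_, ?_, fun v => Iff.rfl⟩
    · obtain ⟨N, hN, h⟩ := (tor_iff hb).1 hz
      intro h0
      have h1 : (N : OO k t) ∈ L4_ann b z := by
        change toC (N : OO k t) * z ∈ Lam b
        rw [toC_nat]
        exact h
      rw [h0, Ideal.mem_bot] at h1
      have h2 := congrArg QuadraticAlgebra.re h1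
      rw [re_nat, QuadraticAlgebra.re_zero] at h2
      have h3 : N = 0 := by exact_mod_cast h2
      omega
    · exact lam_prod.2 fun v hv => hv
  · intro a a' _ _ hs
    have h1 : (1 : OO k t) ∈ a ⊔ a' := by rw [hs]; trivial
    obtain ⟨v, hv, v', hv', hvv⟩ := Submodule.mem_sup.1 h1
    have hz : ∀ z : ℂ, z = toC v * z + toC v' * z := by
      intro z
      rw [← add_mul, ← toC_add, hvv, toC_one, one_mul]
    constructor
    · intro z h2 h3
      rw [hz z]
      exact lam_add (lam_prod.1 h2 v hv) (lam_prod.1 h3 v' hv')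
    · intro z h2
      refine ⟨toC v' * z, ?_, toC v * z, ?_, ?_⟩
      · rw [lam_prod]
        intro u hu
        rw [← mul_assoc, ← toC_mul]
        exact lam_prod.1 h2 _ (Ideal.mul_mem_mul hu hv')
      · rw [lam_prod]
        intro u hu
        rw [← mul_assoc, ← toC_mul, mul_comm u v]
        exact lam_prod.1 h2 _ (Ideal.mul_mem_mul hv hu)
      · rw [add_comm]
        exact hz z

end Pool.Agent.DN
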