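import Pool.Agent.Lib.DN.O.Spec

/-!
# Theorem DN, part L, modules L6, L7: the `N`-torsion points of `ℂ / Lam b`, `b` prime to `N`
-/

set_option autoImplicit false

open scoped Pointwise nonZeroDivisors

noncomputable section

namespace Pool.Agent.DN

open Pool.Agent.MuZ Pool.Agent.FW NumberField IsDedekindDomain

variable {k t : ℕ}

/-- A positive integer in `b`, and `1 = v + N u` with `v ∈ b`. -/
private theorem L6_one [SqN k t] {b : Ideal (OO k t)} {N : ℕ} (h : PrI b N) :
    ∃ v ∈ b, ∃ u : OO k t, v + N * u = 1 := by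
  have h1 : (1 : OO k t) ∈ b ⊔ Ideal.span {(N : OO k t)} := by
    rw [show b ⊔ Ideal.span {(N : OO k t)} = ⊤ from h]
    trivial
  obtain ⟨v, hv, y, hy, hvy⟩ := Submodule.mem_sup.1 h1
  obtain ⟨u, rfl⟩ := Ideal.mem_span_singleton'.1 hy
  exact ⟨v, hv, u, by rw [← hvy]; ring⟩

theorem sL6a : S_L6a := by
  intro k t _ N b hN hb hP
  have hN' : (N : ℂ) ≠ 0 := by exact_mod_cast hN.ne'
  obtain ⟨w, hw, u, e⟩ := L6_one hP
  have e' : toC w + N * toC u = 1 := by
    have h1 := congrArg toC e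
    rw [toC_add, toC_mul, toC_nat, toC_one] at h1
    exact h1
  -- second claim
  have h2 : ∀ z : ℂ, (N : ℂ) * z ∈ Lam b → ∃ v : OO k t, z - toC v / N ∈ Lam b := by
    intro z hz
    -- `w * (N z) = toC x`, so `w z = toC x / N`; `z = w z + N u z`
    obtain ⟨x, hx⟩ := hz w hw
    refine ⟨x, ?_⟩
    have e1 : z - toC x / N = toC u * (N * z) := by
      rw [← hx]
      field_simp
      linear_combination -z * e'
    rw [e1]
    exact lam_mul u hz
  refine ⟨fun v => ⟨fun h => ?_, ?_⟩, h2, ?_⟩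
  · -- `toC w * toC v / N = toC x`
    obtain ⟨x, hx⟩ := h w hw
    refine ⟨x + u * v, toC_inj ?_⟩
    rw [toC_mul, toC_add, toC_mul, toC_nat, ← hx]
    field_simp
    linear_combination -toC v * e'
  · rintro ⟨x, rfl⟩
    rw [toC_mul, toC_nat, mul_div_cancel_left₀ _ hN']
    intro y _
    exact ⟨y * x, by rw [toC_mul]⟩
  · rintro α z ⟨c, hc⟩ hz
    have e1 : toC α * z - z = toC c * (N * z) := by
      have h1 := congrArg toC hc
      rw [toC_sub, toC_mul, toC_nat, toC_one] at h1
      linear_combination z * h1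
    rw [e1]
    exact lam_mul c hz

theorem sL6 (h3 : S_L3) (h12 : S_O12) (h6 : S_L6a) : S_L6 := by
  refine ⟨fun k t _ b N hb hN hP => (h6 k t N b hN hb hP).1, ?_⟩
  intro k t _ b hb T hT hT0 T' hT' hT0'
  obtain ⟨hne, hmax, hc, -, -⟩ := h12 k t
  have two : ((2 : OO k t)) = ((2 : ℕ) : OO k t) := by norm_num
  have e2 : toC (2 : OO k t) = 2 := toC_two
  have m1 : T ∈ Lam (sp (2 : OO k t) * b) := by
    rw [lam_sp, e2]
    exact hT
  have m2 : T' ∈ Lam (sp (2 : OO k t) * b) := by
    rw [lam_sp, e2]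
    exact hT'
  obtain ⟨p1, p2⟩ := (h3 k t (sp (2 : OO k t)) b hne hb).2.1 T m1 (by
    intro a' ha' hm
    have h1 : a' = ⊤ := by
      by_contra h2
      exact absurd (hmax.eq_of_le h2 ha'.le) ha'.ne
    rw [h1, Ideal.top_mul] at hm
    exact hT0 hm)
  obtain ⟨v, hv⟩ := p2 T' m2
  have hsub : ∀ u : OO k t, (2 : OO k t) ∣ v - u → T' - toC u * T ∈ Lam b := by
    intro u hu
    have h1 := lam_add hv ((p1 (v - u)).2 (Ideal.mem_span_singleton.2 hu))
    have e3 : T' - toC v * T + toC (v - u) * T = T' - toC u * T := by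
      rw [toC_sub]
      ring
    rwa [e3] at h1
  rcases hc v with h | h | h | h
  · exfalso
    have h1 := hsub 0 (by rwa [sub_zero])
    rw [toC_zero, zero_mul, sub_zero] at h1
    exact hT0' h1
  · left
    have h1 := hsub 1 h
    rwa [toC_one, one_mul] at h1
  · right; left
    exact hsub _ h
  · right; right
    exact hsub _ h

theorem sL7 (h12 : S_O12) (h6 : S_L6a) : S_L7 := by
  intro k t _ b hb hP
  obtain ⟨-, -, hc, -, -⟩ := h12 k t
  obtain ⟨p1, p2, -⟩ := h6 k t 2 b two_pos hb hP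
  have two : (((2 : ℕ) : OO k t)) = 2 := by norm_num
  have dv : ∀ v : OO k t, (2 : OO k t) ∣ v ↔ (2 : ℤ) ∣ v.re ∧ (2 : ℤ) ∣ v.im := by
    intro v
    rw [← two, nat_dvd_iff]
    norm_num
  have e1 : toC (1 + wI k t) = 1 + wC k t := by rw [toC_add, toC_one, toC_wI]
  rw [two] at p1
  have hsub : ∀ z : ℂ, ∀ v v' : OO k t, z - toC v / (2 : ℕ) ∈ Lam b → (2 : OO k t) ∣ v - v' →
      z - toC v' / 2 ∈ Lam b := by
    intro z v v' hz hd
    have h1 := lam_add hz ((p1 (v - v')).2 hd)
    have e2 : z - toC v / (2 : ℕ) + toC (v - v') / (2 : ℕ) = z - toC v' / 2 := by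
      rw [toC_sub]
      push_cast
      ring
    rwa [e2] at h1
  refine ⟨?_, ?_, ?_, ?_⟩
  · intro h
    have h1 := (p1 1).1 (by rw [toC_one]; exact_mod_cast h)
    rw [dv, re_one] at h1
    omega
  · intro h
    have h1 := (p1 (wI k t)).1 (by rw [toC_wI]; exact_mod_cast h)
    rw [dv] at h1
    have h2 : (wI k t).im = 1 := rfl
    omega
  · intro h
    have h1 := (p1 (1 + wI k t)).1 (by rw [e1]; exact_mod_cast h)
    rw [dv] at h1
    have h2 : (1 + wI k t).im = 1 := by
      rw [QuadraticAlgebra.im_add, im_one]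
      rfl
    omega
  · intro z hz
    obtain ⟨v, hv⟩ := p2 z (by exact_mod_cast hz)
    rcases hc v with h | h | h | h
    · left
      have h1 := hsub z v 0 hv (by rwa [sub_zero])
      rwa [toC_zero, zero_div, sub_zero] at h1
    · right; left
      have h1 := hsub z v 1 hv h
      rwa [toC_one] at h1
    · right; right; left
      have h1 := hsub z v _ hv h
      rwa [toC_wI] at h1
    · right; right; right
      have h1 := hsub z v _ hv h
      rwa [e1] at h1

end Pool.Agent.DN
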