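import Pool.Agent.Lib.DN.O.Spec

/-!
# Theorem DN, part 0, module O10: units
-/

set_option autoImplicit false

open scoped Pointwise nonZeroDivisors

noncomputable section

namespace Pool.Agent.DN

open Pool.Agent.MuZ Pool.Agent.FW NumberField IsDedekindDomain

variable {k t : ℕ}

theorem unit_iff [SqN k t] (e : OO k t) : IsUnit e ↔ Nm e = 1 := by
  constructor
  · rintro ⟨u, rfl⟩
    have h7 : Nm (u : OO k t) * Nm ((u⁻¹ : (OO k t)ˣ) : OO k t) = 1 := by
      rw [← Nm_mul, Units.mul_inv, Nm_one]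
    exact Int.eq_one_or_neg_one_of_mul_eq_one h7 |>.resolve_right (by
      intro h8
      have := Nm_nonneg (u : OO k t)
      omega)
  · intro h
    exact IsUnit.of_mul_eq_one (cjO e) (by rw [mul_cjO, h]; simp)

theorem unit_one [SqN k t] (N : ℕ) (e : OO k t) (hN : 3 ≤ N) (he : Nm e = 1)
    (h : (N : OO k t) ∣ e - 1) : e = 1 := by
  obtain ⟨x, hx⟩ := h
  have h1 : Nm (e - 1) = (N : ℤ) ^ 2 * Nm x := by rw [hx, Nm_mul, Nm_nat]
  have h2 : Nm (e - 1) = Nm e + 1 - (2 * e.re + t * e.im) := by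
    unfold Nm
    simp only [QuadraticAlgebra.re_sub, QuadraticAlgebra.im_sub, re_one, im_one]
    ring
  have h3 := four_Nm e
  have hD := hD3 (n := k) (t := t)
  have h4 : (2 * e.re + t * e.im) ^ 2 ≤ 4 := by
    have : 0 ≤ (4 * (k : ℤ) - (t : ℤ) ^ 2) * e.im ^ 2 := mul_nonneg (by linarith) (sq_nonneg _)
    linarith
  have h5 : -2 ≤ 2 * e.re + t * e.im := by nlinarith
  have h6 : Nm x = 0 := by
    by_contra h0
    have h7 : 1 ≤ Nm x := by
      have := Nm_nonneg x
      omega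
    have h8 : (9 : ℤ) ≤ (N : ℤ) ^ 2 := by
      have : (3 : ℤ) ≤ N := by exact_mod_cast hN
      nlinarith
    nlinarith
  rw [Nm_eq_zero h6, mul_zero] at hx
  exact sub_eq_zero.1 hx

theorem sO10 (h7 : S_O7) : S_O10 := by
  intro k t _
  refine ⟨unit_iff, unit_one, ?_, ?_⟩
  · intro N f v u hN hf h3 hv hu cv cu dv du h
    obtain ⟨e, he, hd⟩ := ((h7 k t N hN).2.2.2.2.2.2.2.1 v u hv hu cv cu).1 h
    obtain ⟨c, hc⟩ := hf
    have hfN : (f : OO k t) ∣ (N : OO k t) := by
      refine ⟨(c : OO k t), ?_⟩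
      rw [hc]
      push_cast
      rfl
    have h1 : (f : OO k t) ∣ e - 1 := by
      have e1 : e - 1 = (v - 1) - (v - e * u) - e * (u - 1) := by ring
      rw [e1]
      exact dvd_sub (dvd_sub dv (hfN.trans hd)) (du.mul_left _)
    have h2 : e = 1 := unit_one f e h3 he h1
    rw [h2, one_mul] at hd
    exact hd
  · intro N v a a' hN h hv cv dv
    have h1 : Ray N (sp v) (⊤ : Ideal (OO k t)) := by
      refine ⟨1, v, one_ne_zero, hv, cop_one N, cv, ?_, ?_⟩
      · rw [← neg_sub]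
        exact dvd_neg.2 dv
      · change Ideal.span {1} * sp v = sp v * ⊤
        rw [Ideal.span_singleton_one, Ideal.mul_top, Ideal.top_mul]
    have h2 := (h7 k t N hN).2.2.2.1 _ _ _ _ h1 h
    rwa [Ideal.top_mul] at h2

end Pool.Agent.DN
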