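import Pool.Agent.Lib.DN.O.Spec

/-!
# Theorem DN, part 0, module O11: coprimality, more
-/

set_option autoImplicit false

open scoped Pointwise nonZeroDivisors

noncomputable section

namespace Pool.Agent.DN

open Pool.Agent.MuZ Pool.Agent.FW NumberField IsDedekindDomain

variable {k t : ℕ}

theorem sO11 (h6 : S_O6) : S_O11 := by
  intro k t _
  obtain ⟨g1, g2, -, -, -⟩ := h6 k t
  refine ⟨?_, fun N a => g2 15 N a, ?_, ?_, fun N v u h hv => cop_congr h hv, ?_⟩
  · rintro N M a ⟨c, rfl⟩ h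
    exact ((g2 M c a).1 h).1
  · intro N
    unfold PrI
    rw [top_sup_eq]
  · intro N a b hab h
    unfold PrI at *
    rw [eq_top_iff, ← h]
    exact sup_le_sup_right hab _
  · intro N N' v v' hN hN' hc
    obtain ⟨x, y, hxy⟩ := Nat.isCoprime_iff_coprime.2 hc
    have key : ((x : OO k t) * (N : OO k t) + (y : OO k t) * (N' : OO k t)) = 1 := by
      have h1 : ((x * (N : ℤ) + y * (N' : ℤ) : ℤ) : OO k t) = ((1 : ℤ) : OO k t) :=
        congrArg (fun i : ℤ => (i : OO k t)) hxy
      push_cast at h1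
      exact h1
    set u₀ : OO k t := v' * (x * N) + v * (y * N') with hu₀
    have e1 : (N : OO k t) ∣ u₀ - v := ⟨(v' - v) * x, by
      rw [hu₀]
      linear_combination v * key⟩
    have e2 : (N' : OO k t) ∣ u₀ - v' := ⟨(v - v') * y, by
      rw [hu₀]
      linear_combination v' * key⟩
    by_cases h0 : u₀ = 0
    · refine ⟨(N : OO k t) * (N' : OO k t), ?_, ?_, ?_⟩
      · intro h
        have h1 := congrArg Nm h
        rw [Nm_mul, Nm_nat, Nm_nat, Nm_zero] at h1
        have h2 : (0 : ℤ) < (N : ℤ) ^ 2 * (N' : ℤ) ^ 2 := by positivity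
        omega
      · rw [h0, zero_sub] at e1
        exact dvd_sub (Dvd.intro _ rfl) (dvd_neg.1 e1)
      · rw [h0, zero_sub] at e2
        exact dvd_sub (Dvd.intro_left _ rfl) (dvd_neg.1 e2)
    · exact ⟨u₀, h0, e1, e2⟩

end Pool.Agent.DN
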