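import Pool.Agent.Lib.DN.O.Spec

/-!
# Theorem DN, part 0, module O2: norms of elements and ideals
-/

set_option autoImplicit false

noncomputable section

namespace Pool.Agent.DN

variable {k t : ℕ}

private theorem O2_NI [SqN k t] (a : Ideal (OO k t)) : NI a = Ideal.absNorm a := rfl

private theorem O2_norm [SqN k t] (v : OO k t) : Algebra.norm ℤ v = Nm v := by
  have h1 : Algebra.norm ℤ v = QuadraticAlgebra.norm v := by
    rw [← QuadraticAlgebra.det_toLinearMap_eq_norm, Algebra.norm_apply]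
    rfl
  rw [h1, QuadraticAlgebra.norm_def]
  unfold Nm
  ring

theorem sO2 : S_O2 := by
  intro k t _
  refine ⟨Nm_mul, Nm_nonneg, fun v => ⟨Nm_eq_zero, fun h => ?_⟩, fun v => ?_, fun a b => ?_,
    fun a => ?_, mul_cjO, fun v => ⟨(conj_toC v).symm, ?_⟩⟩
  · rw [h, Nm_zero]
  · rw [O2_NI, Ideal.absNorm_span_singleton, O2_norm]
    exact Int.natAbs_of_nonneg (Nm_nonneg v)
  · rw [O2_NI, O2_NI, O2_NI, map_mul]
  · rw [O2_NI]
    exact Ideal.absNorm_eq_zero_iff
  · have h := Nm_norm v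
    exact_mod_cast congrArg (fun x : ℝ => (x : ℂ)) h

end Pool.Agent.DN
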