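import Pool.Agent.Lib.DN.O.Spec

/-!
# Theorem DN, part 0, module O4: the prime `2` (inert case)
-/

set_option autoImplicit false

open scoped Pointwise nonZeroDivisors

noncomputable section

namespace Pool.Agent.DN

open Pool.Agent.MuZ Pool.Agent.FW NumberField IsDedekindDomain

variable {k t : ℕ}

private theorem two_cast : (((2 : ℕ) : OO k t)) = 2 := by norm_num

private theorem O4_dvd (v : OO k t) : (2 : OO k t) ∣ v ↔ (2 : ℤ) ∣ v.re ∧ (2 : ℤ) ∣ v.im := by
  rw [← two_cast, nat_dvd_iff]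
  norm_num

private theorem O4_Nm [h : Ine k t] (v : OO k t) : (2 : ℤ) ∣ Nm v ↔ (2 : OO k t) ∣ v := by
  rw [O4_dvd]
  have ht := h.one
  subst ht
  have hk := h.odd
  obtain ⟨c, hc⟩ : ∃ c : ℤ, (k : ℤ) = 2 * c + 1 := ⟨(k : ℤ) / 2, by omega⟩
  unfold Nm
  push_cast
  generalize v.re = x
  generalize v.im = y
  rw [hc]
  rcases Int.even_or_odd' x with ⟨a, ha | ha⟩ <;> rcases Int.even_or_odd' y with ⟨b, hb | hb⟩ <;>
    rw [ha, hb]
  · constructor
    · intro _
      exact ⟨⟨a, rfl⟩, ⟨b, rfl⟩⟩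
    · intro _
      exact ⟨2 * a ^ 2 + 2 * a * b + 2 * (2 * c + 1) * b ^ 2, by ring⟩
  · constructor
    · rintro ⟨d, hd⟩
      exfalso
      have : (2 : ℤ) * (d - (2 * a ^ 2 + a * (2 * b + 1) + c * (2 * b + 1) ^ 2 + 2 * b ^ 2 + 2 * b)) = 1 := by
        linear_combination -hd
      omega
    · rintro ⟨_, hd⟩
      omega
  · constructor
    · rintro ⟨d, hd⟩
      exfalso
      have : (2 : ℤ) * (d - (2 * a ^ 2 + 2 * a + (2 * a + 1) * b + 2 * (2 * c + 1) * b ^ 2)) = 1 := by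
        linear_combination -hd
      omega
    · rintro ⟨hd, _⟩
      omega
  · constructor
    · rintro ⟨d, hd⟩
      exfalso
      have : (2 : ℤ) * (d - (2 * a ^ 2 + 2 * a + 2 * a * b + a + b + 1 + c * (2 * b + 1) ^ 2 +
          2 * b ^ 2 + 2 * b)) = 1 := by
        linear_combination -hd
      omega
    · rintro ⟨hd, _⟩
      omega

private theorem O4_w [h : Ine k t] : (2 : OO k t) ∣ wI k t ^ 2 + wI k t + 1 := by
  rw [O4_dvd]
  have ht := h.one
  subst ht
  have hk := h.odd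
  rw [sq]
  simp only [QuadraticAlgebra.re_add, QuadraticAlgebra.im_add, re_mul, im_mul, re_one, im_one, wI]
  constructor
  · push_cast
    omega
  · norm_num

private theorem O4_cases [Ine k t] (v : OO k t) : (2 : OO k t) ∣ v ∨ (2 : OO k t) ∣ v - 1 ∨
    (2 : OO k t) ∣ v - wI k t ∨ (2 : OO k t) ∣ v - (1 + wI k t) := by
  simp only [O4_dvd, QuadraticAlgebra.re_sub, QuadraticAlgebra.im_sub, QuadraticAlgebra.re_add,
    QuadraticAlgebra.im_add, re_one, im_one, wI]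
  omega

private theorem O4_cube [Ine k t] (v : OO k t) (hv : ¬ (2 : OO k t) ∣ v) : (2 : OO k t) ∣ v ^ 3 - 1 := by
  obtain ⟨y, hy⟩ := O4_w (k := k) (t := t)
  rcases O4_cases v with h | ⟨q, hq⟩ | ⟨q, hq⟩ | ⟨q, hq⟩
  · exact absurd h hv
  · have e : v = 1 + 2 * q := by linear_combination hq
    exact ⟨3 * q + 6 * q ^ 2 + 4 * q ^ 3, by rw [e]; ring⟩
  · have e : v = wI k t + 2 * q := by linear_combination hq
    exact ⟨(wI k t - 1) * y + 3 * wI k t ^ 2 * q + 6 * wI k t * q ^ 2 + 4 * q ^ 3, by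
      rw [e]
      linear_combination (wI k t - 1) * hy⟩
  · have e : v = 1 + wI k t + 2 * q := by linear_combination hq
    exact ⟨(wI k t + 2) * y - 1 + 3 * (1 + wI k t) ^ 2 * q + 6 * (1 + wI k t) * q ^ 2 + 4 * q ^ 3, by
      rw [e]
      linear_combination (wI k t + 2) * hy⟩

private theorem O4_quad [Ine k t] (v : OO k t) (hv : ¬ (2 : OO k t) ∣ v) (hv1 : ¬ (2 : OO k t) ∣ v - 1) :
    (2 : OO k t) ∣ v ^ 2 + v + 1 := by
  obtain ⟨y, hy⟩ := O4_w (k := k) (t := t)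
  rcases O4_cases v with h | h | ⟨q, hq⟩ | ⟨q, hq⟩
  · exact absurd h hv
  · exact absurd h hv1
  · have e : v = wI k t + 2 * q := by linear_combination hq
    exact ⟨y + 2 * wI k t * q + 2 * q ^ 2 + q, by
      rw [e]
      linear_combination hy⟩
  · have e : v = 1 + wI k t + 2 * q := by linear_combination hq
    exact ⟨y + wI k t + 1 + 2 * (1 + wI k t) * q + 2 * q ^ 2 + q, by
      rw [e]
      linear_combination hy⟩

private theorem O4_sq [h : Ine k t] (v : OO k t) : (2 : OO k t) ∣ v ^ 2 - cjO v := by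
  rw [O4_dvd]
  have ht := h.one
  subst ht
  have hk := h.odd
  obtain ⟨c, hc⟩ : ∃ c : ℤ, (k : ℤ) = 2 * c + 1 := ⟨(k : ℤ) / 2, by omega⟩
  obtain ⟨a, ha⟩ : ∃ a : ℤ, v.re ^ 2 - v.re = 2 * a := by
    rcases Int.even_or_odd' v.re with ⟨a, ha | ha⟩
    · exact ⟨2 * a ^ 2 - a, by rw [ha]; ring⟩
    · exact ⟨2 * a ^ 2 + a, by rw [ha]; ring⟩
  obtain ⟨b, hb⟩ : ∃ b : ℤ, v.im ^ 2 + v.im = 2 * b := by
    rcases Int.even_or_odd' v.im with ⟨b, hb | hb⟩
    · exact ⟨2 * b ^ 2 + b, by rw [hb]; ring⟩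
    · exact ⟨2 * b ^ 2 + 3 * b + 1, by rw [hb]; ring⟩
  rw [sq]
  simp only [QuadraticAlgebra.re_sub, QuadraticAlgebra.im_sub, re_mul, im_mul, cjO]
  push_cast
  constructor
  · exact ⟨a - b - c * v.im ^ 2, by linear_combination ha - hb - v.im ^ 2 * hc⟩
  · exact ⟨v.re * v.im + b, by linear_combination hb⟩

private theorem O4_ne [Ine k t] : sp (2 : OO k t) ≠ ⊥ := by
  rw [Ne, Ideal.span_singleton_eq_bot]
  intro h0
  have h1 := congrArg Nm h0
  rw [← two_cast, Nm_nat, Nm_zero] at h1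
  norm_num at h1

private theorem O4_prime [Ine k t] : (sp (2 : OO k t)).IsPrime := by
  have hdN : ∀ v : OO k t, (2 : ℤ) ∣ Nm v ↔ (2 : OO k t) ∣ v := O4_Nm
  refine Ideal.isPrime_iff.2 ⟨?_, ?_⟩
  · intro h1
    have h3 : (1 : OO k t) ∈ sp (2 : OO k t) := by
      rw [h1]
      trivial
    rw [Ideal.mem_span_singleton, ← hdN, Nm_one] at h3
    omega
  · intro x y hxy
    rw [Ideal.mem_span_singleton, ← hdN, Nm_mul] at hxy
    rw [Ideal.mem_span_singleton, Ideal.mem_span_singleton, ← hdN, ← hdN]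
    exact Int.prime_two.dvd_or_dvd hxy

theorem sO4 (h2 : S_O2) : S_O4 := by
  intro k t h
  have hdN : ∀ v : OO k t, (2 : ℤ) ∣ Nm v ↔ (2 : OO k t) ∣ v := O4_Nm
  have hcop : ∀ v : OO k t, Cop v 2 ↔ ¬ (2 : ℤ) ∣ Nm v := by
    intro v
    unfold Cop
    push_cast
    constructor
    · intro h1 h3
      have h4 : IsUnit (2 : ℤ) := (h1.symm.isUnit_of_dvd h3)
      rw [Int.isUnit_iff] at h4
      omega
    · intro h1
      exact ((Int.prime_two.coprime_iff_not_dvd).2 h1).symm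
  have hcop' : ∀ v : OO k t, Cop v 2 ↔ ¬ (2 : OO k t) ∣ v := fun v => by rw [hcop, hdN]
  refine ⟨O4_prime, ?_, hcop', hcop, O4_dvd, fun v hv => O4_cube v ((hcop' v).1 hv), O4_sq,
    fun v hv => (O4_cases v).resolve_left ((hcop' v).1 hv),
    fun v hv hv1 => O4_quad v ((hcop' v).1 hv) hv1⟩
  have h3 := (h2 k t).2.2.2.1 (2 : OO k t)
  have h4 : Nm (2 : OO k t) = 4 := by
    rw [← two_cast, Nm_nat]
    norm_num
  rw [h4] at h3
  exact_mod_cast h3

theorem sO12 : S_O12 := by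
  intro k t h
  have hmax : (sp (2 : OO k t)).IsMaximal := (O4_prime (k := k) (t := t)).isMaximal O4_ne
  refine ⟨O4_ne, hmax, O4_cases, ?_, ?_⟩
  · intro v
    by_cases hv : (2 : OO k t) ∣ v
    · exact dvd_sub (dvd_pow hv (by norm_num)) hv
    · have e : v ^ 4 - v = v * (v ^ 3 - 1) := by ring
      rw [e]
      exact (O4_cube v hv).mul_left _
  · intro b
    unfold PrI
    rw [two_cast]
    constructor
    · intro h1 h3
      rw [sup_eq_right.2 h3] at h1
      exact hmax.ne_top h1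
    · intro h1
      by_contra h3
      apply h1
      have h4 := hmax.eq_of_le h3 (le_sup_right : sp (2 : OO k t) ≤ b ⊔ sp (2 : OO k t))
      rw [h4]
      exact le_sup_left

end Pool.Agent.DN
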