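import Pool.Agent.Lib.DN.O.O8b

/-!
# Theorem DN, module O8: every ray class contains a product of primes of degree one
-/

set_option autoImplicit false

open scoped Pointwise nonZeroDivisors

noncomputable section

namespace Pool.Agent.DN

open Pool.Agent.MuZ Pool.Agent.FW NumberField IsDedekindDomain
open Pool.Agent.DI (io ofC io_inj exists_io io_ofC ofC_io VP MP UP TP ex sqr sqr_sq kap)

variable {k t : ℕ}

/-- The conclusion of `S_O8` for the ideal `a`. -/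
def O8_Good (N M : ℕ) (C : Ideal (OO k t) → Prop) (a : Ideal (OO k t)) : Prop :=
  ∃ a' : Ideal (OO k t), a' ≠ ⊥ ∧ PrI a' (N * M) ∧ C a' ∧ Ray N a a'

private theorem O8_PrI_top (N : ℕ) : PrI (⊤ : Ideal (OO k t)) N := top_sup_eq _

private theorem O8_mul_ne_bot [SqN k t] {a b : Ideal (OO k t)} (ha : a ≠ ⊥) (hb : b ≠ ⊥) : a * b ≠ ⊥ :=
  mul_ne_zero (a := a) (b := b) ha hb

/-- Good ideals are closed under products. -/
private theorem O8_good_mul (h6 : S_O6) (h7 : S_O7) [SqN k t] {N M : ℕ} (hN : 0 < N)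
    {C : Ideal (OO k t) → Prop} (hCm : ∀ a b, C a → C b → C (a * b)) {a b : Ideal (OO k t)}
    (ha : O8_Good N M C a) (hb : O8_Good N M C b) : O8_Good N M C (a * b) := by
  obtain ⟨a', ha0, haP, haC, haR⟩ := ha
  obtain ⟨b', hb0, hbP, hbC, hbR⟩ := hb
  exact ⟨a' * b', O8_mul_ne_bot ha0 hb0, ((h6 k t).1 (N * M) a' b').2 ⟨haP, hbP⟩, hCm a' b' haC hbC,
    (h7 k t N hN).2.2.2.1 a a' b b' haR hbR⟩

/-- The property depends only on the class. -/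
private theorem O8_good_ray (h7 : S_O7) [SqN k t] {N M : ℕ} (hN : 0 < N)
    {C : Ideal (OO k t) → Prop} {a b : Ideal (OO k t)}
    (ha : O8_Good N M C a) (hR : Ray N b a) : O8_Good N M C b := by
  obtain ⟨a', ha0, haP, haC, haR⟩ := ha
  exact ⟨a', ha0, haP, haC, (h7 k t N hN).2.2.1 b a a' hR haR⟩

private theorem O8_pow (h6 : S_O6) [SqN k t] {N M : ℕ} {C : Ideal (OO k t) → Prop} (hC1 : C ⊤)
    (hCm : ∀ a b, C a → C b → C (a * b)) {a : Ideal (OO k t)} (h0 : a ≠ ⊥) (hP : PrI a (N * M))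
    (hC : C a) (n : ℕ) : a ^ n ≠ ⊥ ∧ PrI (a ^ n) (N * M) ∧ C (a ^ n) := by
  induction n with
  | zero =>
    rw [pow_zero, Ideal.one_eq_top]
    exact ⟨top_ne_bot, O8_PrI_top _, hC1⟩
  | succ n ih =>
    rw [pow_succ]
    exact ⟨O8_mul_ne_bot ih.1 h0, ((h6 k t).1 (N * M) _ _).2 ⟨ih.2.1, hP⟩, hCm _ _ ih.2.2 hC⟩

/-- The inverse class of a good ideal is good. -/
private theorem O8_good_inv (h6 : S_O6) (h7 : S_O7) [SqN k t] {N M : ℕ} (hN : 0 < N)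
    {C : Ideal (OO k t) → Prop} (hC1 : C ⊤) (hCm : ∀ a b, C a → C b → C (a * b))
    {a a₁ : Ideal (OO k t)} (ha : O8_Good N M C a) (hR : Ray N (a * a₁) ⊤) : O8_Good N M C a₁ := by
  obtain ⟨hrefl, hsymm, htrans, hmul, hcan, -, -, -, -, -, R, hRC⟩ := h7 k t N hN
  obtain ⟨a', ha0, haP, haC, haR⟩ := ha
  have hpow := O8_pow h6 hC1 hCm ha0 haP haC
  have haN : ∀ n : ℕ, PrI (a' ^ n) N := fun n => (((h6 k t).2.1 N M _).1 (hpow n).2.1).1
  -- two powers of `a'` have the same class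
  have hex : ∀ n : ℕ, ∃ b ∈ R, Ray N (a' ^ n) b := fun n => hRC.ex _ (hpow n).1 (haN n)
  choose f hfR hf using hex
  obtain ⟨m, -, n, -, hmn, hfmn⟩ := Set.infinite_univ.exists_ne_map_eq_of_mapsTo
    (f := f) (t := (R : Set (Ideal (OO k t)))) (fun n _ => hfR n) R.finite_toSet
  have key : ∀ m n : ℕ, m < n → f m = f n → ∃ j : ℕ, Ray N (a' ^ (j + 1)) ⊤ := by
    intro m n hlt he
    obtain ⟨j, rfl⟩ := Nat.exists_eq_add_of_lt hlt
    refine ⟨j, ?_⟩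
    have h1 : Ray N (a' ^ (m + j + 1)) (a' ^ m) := by
      have h2 := hf (m + j + 1)
      rw [← he] at h2
      exact htrans _ _ _ h2 (hsymm _ _ (hf m))
    apply hcan _ _ (a' ^ m) (hpow m).1 (haN m)
    rw [Ideal.top_mul, ← pow_add]
    have h3 : j + 1 + m = m + j + 1 := by ring
    rwa [h3]
  obtain ⟨j, hj⟩ : ∃ j : ℕ, Ray N (a' ^ (j + 1)) ⊤ := by
    rcases lt_or_gt_of_ne hmn with h | h
    · exact key m n h hfmn
    · exact key n m h hfmn.symm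
  refine ⟨a' ^ j, (hpow j).1, (hpow j).2.1, (hpow j).2.2, ?_⟩
  have h1 : Ray N (a' * a₁) ⊤ := htrans _ _ _ (hmul _ _ _ _ (hsymm _ _ haR) (hrefl a₁)) hR
  have ha'N : PrI a' N := by simpa using haN 1
  apply hcan _ _ a' ha0 ha'N
  rw [← pow_succ, mul_comm a₁ a']
  exact htrans _ _ _ h1 (hsymm _ _ hj)

/-- Principal ideals prime to `N` are good. -/
private theorem O8_good_sp (h6 : S_O6) (h7 : S_O7) (h8a : S_O8a) (h8b : S_O8b) [SqN k t] {N M : ℕ}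
    (hN : 0 < N) (hM : 0 < M) {C : Ideal (OO k t) → Prop} (hC1 : C ⊤)
    (hCm : ∀ a b, C a → C b → C (a * b))
    (hC : ∀ (q : Ideal (OO k t)) (l : ℕ), Deg1 q l → l.Coprime (N * M) → C q)
    {α : OO k t} (h0 : α ≠ 0) (hα : Cop α N) : O8_Good N M C (sp α) := by
  obtain ⟨β, hβ0, hβα, hβ, hco⟩ := h8a k t N M hN hM α hα
  have hNM : 0 < N * M := Nat.mul_pos hN hM
  refine ⟨sp β, fun h => hβ0 (Ideal.span_singleton_eq_bot.1 h),
    ((h6 k t).2.2.2.1 (N * M) β hNM).2 hβ, ?_, ?_⟩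
  · apply h8b k t β hβ0 hco C hC1 hCm
    intro q l hq hl
    apply hC q l hq
    have h1 : IsCoprime (l : ℤ) ((N * M : ℕ) : ℤ) := IsCoprime.of_isCoprime_of_dvd_left hβ hl
    exact Nat.isCoprime_iff_coprime.1 h1
  · apply ((h7 k t N hN).2.2.2.2.2.2.2.1 α β h0 hβ0 hα (cop_dvd hβ (Dvd.intro _ rfl))).2
    refine ⟨1, Nm_one, ?_⟩
    rw [one_mul, ← neg_sub, dvd_neg]
    exact hβα

/-- Ideals prime to `N M` are good. -/
private theorem O8_good_PrI (h2 : S_O2) (h6 : S_O6) (h7 : S_O7) (h8a : S_O8a) (h8b : S_O8b)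
    [SqN k t] {N M : ℕ} (hN : 0 < N) (hM : 0 < M) {C : Ideal (OO k t) → Prop} (hC1 : C ⊤)
    (hCm : ∀ a b, C a → C b → C (a * b))
    (hC : ∀ (q : Ideal (OO k t)) (l : ℕ), Deg1 q l → l.Coprime (N * M) → C q)
    (c : Ideal (OO k t)) : c ≠ ⊥ → PrI c (N * M) → O8_Good N M C c := by
  have hNM : 0 < N * M := Nat.mul_pos hN hM
  induction c using UniqueFactorizationMonoid.induction_on_prime with
  | h₁ => exact fun h => absurd rfl h
  | h₂ x hx =>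
    intro _ _
    rw [Ideal.isUnit_iff.1 hx]
    exact ⟨⊤, top_ne_bot, O8_PrI_top _, hC1, (h7 k t N hN).1 ⊤⟩
  | h₃ a P ha0 hP ih =>
    intro _ hPrI
    obtain ⟨hP1, ha1⟩ := ((h6 k t).1 (N * M) P a).1 hPrI
    refine O8_good_mul h6 h7 hN hCm ?_ (ih ha0 ha1)
    have hP0 : P ≠ ⊥ := hP.ne_zero
    have hPp : P.IsPrime := Ideal.isPrime_of_prime hP
    obtain ⟨p, hp, hpP, hcase⟩ := O8b_prime_cases h2 P hPp hP0
    rcases hcase with h | h
    · refine ⟨P, hP0, hP1, hC P p ⟨hPp, hP0, hp, h⟩ ?_, (h7 k t N hN).1 P⟩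
      rw [← h]
      exact ((h6 k t).2.2.1 (N * M) P hNM).1 hP1
    · rw [h] at hP1 hP0 ⊢
      have h1 : Cop (p : OO k t) (N * M) := ((h6 k t).2.2.2.1 (N * M) _ hNM).1 hP1
      exact O8_good_sp h6 h7 h8a h8b hN hM hC1 hCm hC
        (fun h3 => hP0 (by rw [h3]; exact Ideal.span_singleton_eq_bot.2 rfl))
        (cop_dvd h1 (Dvd.intro _ rfl))

/-- A generator of `a` modulo `a * sp n`, not zero. -/
private theorem O8_gen [SqN k t] {n : ℕ} (hn : 0 < n) {a : Ideal (OO k t)} (ha : a ≠ ⊥) :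
    ∃ α : OO k t, α ≠ 0 ∧ ∃ c : Ideal (OO k t), c ≠ ⊥ ∧ sp α = a * c ∧ PrI c n := by
  have hn0 : sp (n : OO k t) ≠ ⊥ := by
    intro h
    have h1 : (n : OO k t) = 0 := Ideal.span_singleton_eq_bot.1 h
    have h2 := congrArg Nm h1
    rw [Nm_nat, Nm_zero] at h2
    have h3 : (n : ℤ) = 0 := by simpa using h2
    omega
  have hle : a * sp (n : OO k t) ≤ a := Ideal.mul_le_left
  obtain ⟨α₀, hα₀⟩ := IsDedekindDomain.exists_sup_span_eq hle (O8_mul_ne_bot ha hn0)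
  obtain ⟨α, hα0, hα⟩ : ∃ α : OO k t, α ≠ 0 ∧ a * sp (n : OO k t) ⊔ sp α = a := by
    by_cases h : α₀ = 0
    · obtain ⟨v, hv, hv0⟩ := Submodule.exists_mem_ne_zero_of_ne_bot ha
      refine ⟨v, hv0, ?_⟩
      have h1 : a * sp (n : OO k t) = a := by
        rw [h, Ideal.span_singleton_eq_bot.2 rfl, sup_bot_eq] at hα₀
        exact hα₀
      rw [h1]
      exact sup_eq_left.2 ((Ideal.span_singleton_le_iff_mem a).2 hv)
    · exact ⟨α₀, h, hα₀⟩
  have h1 : sp α ≤ a := by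
    rw [← hα]
    exact le_sup_right
  obtain ⟨c, hc⟩ := Ideal.dvd_iff_le.2 h1
  refine ⟨α, hα0, c, ?_, hc, ?_⟩
  · rintro rfl
    rw [Ideal.mul_bot] at hc
    exact hα0 (Ideal.span_singleton_eq_bot.1 hc)
  · have h2 : a * (c ⊔ sp (n : OO k t)) = a * ⊤ := by
      rw [Ideal.mul_sup, ← hc, Ideal.mul_top, sup_comm]
      exact hα
    exact mul_left_cancel₀ (a := a) ha h2

theorem sO8 (h2 : S_O2) (h6 : S_O6) (h7 : S_O7) (h8a : S_O8a) (h8b : S_O8b) : S_O8 := by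
  intro k t _ N M hN hM C hC1 hCm hC a ha haN
  have hNM : 0 < N * M := Nat.mul_pos hN hM
  obtain ⟨hrefl, hsymm, htrans, hmul, hcan, hcls, -, -, -, hinv, -⟩ := h7 k t N hN
  obtain ⟨α, hα0, c, hc0, hαc, hcP⟩ := O8_gen hNM ha
  have hcN : PrI c N := (((h6 k t).2.1 N M c).1 hcP).1
  have hαN : Cop α N := by
    apply ((h6 k t).2.2.2.1 N α hN).1
    rw [hαc]
    exact ((h6 k t).1 N a c).2 ⟨haN, hcN⟩
  obtain ⟨c₁, hc₁0, hc₁P, hc₁R⟩ := hinv c hc0 hcN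
  have hc₁ : O8_Good N M C c₁ :=
    O8_good_inv h6 h7 hN hC1 hCm (O8_good_PrI h2 h6 h7 h8a h8b hN hM hC1 hCm hC c hc0 hcP) hc₁R
  have hαg : O8_Good N M C (sp α) := O8_good_sp h6 h7 h8a h8b hN hM hC1 hCm hC hα0 hαN
  have hgood : O8_Good N M C (sp α * c₁) := O8_good_mul h6 h7 hN hCm hαg hc₁
  refine O8_good_ray h7 hN hgood ?_
  rw [hαc, mul_assoc]
  have h1 := hmul a a (c * c₁) ⊤ (hrefl a) hc₁R
  rw [Ideal.mul_top] at h1
  exact hsymm _ _ h1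

end Pool.Agent.DN
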