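import Pool.Agent.Lib.DN.O.Spec

/-!
# Theorem DN, module O8a: primitive representatives
-/

set_option autoImplicit false

open scoped Pointwise nonZeroDivisors

noncomputable section

namespace Pool.Agent.DN

open Pool.Agent.MuZ Pool.Agent.FW NumberField IsDedekindDomain
open Pool.Agent.DI (io ofC io_inj exists_io io_ofC ofC_io VP MP UP TP ex)

/-- The part `M'` of `M` which is prime to `N`. -/
private theorem O8a_part (N M : ℕ) (hN : 0 < N) (hM : 0 < M) :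
    ∃ M' : ℕ, 0 < M' ∧ Nat.Coprime N M' ∧ ∀ r : ℕ, r.Prime → r ∣ M → r ∣ N ∨ r ∣ M' := by
  classical
  refine ⟨∏ p ∈ M.primeFactors \ N.primeFactors, p, ?_, ?_, ?_⟩
  · refine Finset.prod_pos fun p hp => ?_
    exact (Nat.prime_of_mem_primeFactors (Finset.mem_sdiff.1 hp).1).pos
  · refine Nat.Coprime.prod_right fun p hp => ?_
    obtain ⟨h1, h2⟩ := Finset.mem_sdiff.1 hp
    have hpp := Nat.prime_of_mem_primeFactors h1
    refine Nat.Coprime.symm ((Nat.Prime.coprime_iff_not_dvd hpp).2 fun h3 => h2 ?_)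
    exact Nat.mem_primeFactors.2 ⟨hpp, h3, hN.ne'⟩
  · intro r hr hrM
    by_cases h : r ∣ N
    · exact Or.inl h
    · refine Or.inr (Finset.dvd_prod_of_mem _ (Finset.mem_sdiff.2 ⟨?_, ?_⟩))
      · exact Nat.mem_primeFactors.2 ⟨hr, hrM, hM.ne'⟩
      · exact fun h' => h (Nat.dvd_of_mem_primeFactors h')

/-- The product of a set of primes is divisible by exactly the primes of the set. -/
private theorem O8a_prod (x : ℕ) (hx : x ≠ 0) (Q : ℕ → Prop) :
    ∃ t : ℕ, ∀ r : ℕ, r.Prime → r ∣ x → (r ∣ t ↔ Q r) := by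
  classical
  refine ⟨∏ p ∈ x.primeFactors.filter Q, p, fun r hr hrx => ⟨fun h => ?_, fun h => ?_⟩⟩
  · obtain ⟨p, hp, hrp⟩ := (Prime.dvd_finsetProd_iff hr.prime _).1 h
    obtain ⟨h1, h2⟩ := Finset.mem_filter.1 hp
    have hpp := Nat.prime_of_mem_primeFactors h1
    rw [(Nat.prime_dvd_prime_iff_eq hr hpp).1 hrp]
    exact h2
  · exact Finset.dvd_prod_of_mem _ (Finset.mem_filter.2 ⟨Nat.mem_primeFactors.2 ⟨hr, hrx, hx⟩, h⟩)

/-- The arithmetic statement on integers. -/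
private theorem O8a_int (N M' : ℕ) (hN : 0 < N) (hM' : 0 < M') (hc : Nat.Coprime N M') (a b : ℤ)
    (hab : ∀ r : ℕ, r.Prime → r ∣ N → (r : ℤ) ∣ a → (r : ℤ) ∣ b → False) :
    ∃ x y : ℤ, x ≠ 0 ∧ (N : ℤ) ∣ x - a ∧ (N : ℤ) ∣ y - b ∧ (M' : ℤ) ∣ x - 1 ∧ (M' : ℤ) ∣ y ∧
      IsCoprime x y := by
  obtain ⟨u, v, huv⟩ := Nat.isCoprime_iff_coprime.2 hc
  obtain ⟨x, hx0, hxN, hxM⟩ : ∃ x : ℤ, x ≠ 0 ∧ (N : ℤ) ∣ x - a ∧ (M' : ℤ) ∣ x - 1 := by
    have h1 : (N : ℤ) ∣ (a * (v * M') + u * N) - a := ⟨u - a * u, by linear_combination a * huv⟩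
    have h2 : (M' : ℤ) ∣ (a * (v * M') + u * N) - 1 := ⟨a * v - v, by linear_combination huv⟩
    by_cases h : a * (v * M') + u * N = 0
    · refine ⟨a * (v * M') + u * N + N * M', ?_, ?_, ?_⟩
      · rw [h, zero_add]
        positivity
      · have e : a * (v * M') + u * N + N * M' - a = (a * (v * M') + u * N - a) + N * M' := by ring
        rw [e]
        exact dvd_add h1 (dvd_mul_right _ _)
      · have e : a * (v * M') + u * N + N * M' - 1 = (a * (v * M') + u * N - 1) + N * M' := by ring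
        rw [e]
        exact dvd_add h2 (dvd_mul_left _ _)
    · exact ⟨_, h, h1, h2⟩
  obtain ⟨y₁, hyN, hyM⟩ : ∃ y : ℤ, (N : ℤ) ∣ y - b ∧ (M' : ℤ) ∣ y :=
    ⟨b * (v * M'), ⟨-(b * u), by linear_combination b * huv⟩, ⟨b * v, by ring⟩⟩
  obtain ⟨t, ht⟩ := O8a_prod x.natAbs (Int.natAbs_ne_zero.2 hx0)
    (fun p => ¬ p ∣ N ∧ ¬ p ∣ M' ∧ ¬ (p : ℤ) ∣ y₁)
  refine ⟨x, y₁ + N * M' * t, hx0, hxN, ?_, hxM, ?_, ?_⟩
  · have e : y₁ + N * M' * t - b = (y₁ - b) + N * (M' * t) := by ring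
    rw [e]
    exact dvd_add hyN (dvd_mul_right _ _)
  · have e : y₁ + N * M' * t = y₁ + M' * (N * t) := by ring
    rw [e]
    exact dvd_add hyM (dvd_mul_right _ _)
  · rw [Int.isCoprime_iff_gcd_eq_one]
    refine Nat.coprime_of_dvd fun r hr hrx hry => ?_
    have hrx' : (r : ℤ) ∣ x := Int.natCast_dvd.2 hrx
    have hry' : (r : ℤ) ∣ y₁ + N * M' * t := Int.natCast_dvd.2 hry
    have hrp : Prime (r : ℤ) := Nat.prime_iff_prime_int.1 hr
    by_cases h1 : r ∣ N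
    · have h1' : (r : ℤ) ∣ N := by exact_mod_cast h1
      have h2 : (r : ℤ) ∣ a := by
        have := dvd_sub hrx' (h1'.trans hxN)
        rwa [sub_sub_cancel] at this
      have h3 : (r : ℤ) ∣ y₁ := by
        have h4 : (r : ℤ) ∣ N * M' * t := (h1'.mul_right _).mul_right _
        exact (dvd_add_left h4).1 hry'
      have h5 : (r : ℤ) ∣ b := by
        have := dvd_sub h3 (h1'.trans hyN)
        rwa [sub_sub_cancel] at this
      exact hab r hr h1 h2 h5
    · by_cases h2 : r ∣ M'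
      · have h2' : (r : ℤ) ∣ M' := by exact_mod_cast h2
        have h3 : (r : ℤ) ∣ 1 := by
          have := dvd_sub hrx' (h2'.trans hxM)
          rwa [sub_sub_cancel] at this
        exact hrp.not_isUnit (isUnit_of_dvd_one h3)
      · by_cases h3 : (r : ℤ) ∣ y₁
        · have h4 : ¬ r ∣ t := fun h5 => ((ht r hr hrx).1 h5).2.2 h3
          have h5 : (r : ℤ) ∣ N * M' * t := (dvd_add_right h3).1 hry'
          rcases hrp.dvd_or_dvd h5 with h6 | h6
          · rcases hrp.dvd_or_dvd h6 with h7 | h7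
            · exact h1 (by exact_mod_cast h7)
            · exact h2 (by exact_mod_cast h7)
          · exact h4 (by exact_mod_cast h6)
        · have h4 : (r : ℤ) ∣ t := by exact_mod_cast (ht r hr hrx).2 ⟨h1, h2, h3⟩
          exact h3 ((dvd_add_left (h4.mul_left _)).1 hry')

theorem sO8a : S_O8a := by
  intro k t _ N M hN hM β₀ hβ₀
  obtain ⟨M', hM'0, hcop, hM'⟩ := O8a_part N M hN hM
  obtain ⟨x, y, hx0, hxN, hyN, hxM, hyM, hxy⟩ := O8a_int N M' hN hM'0 hcop β₀.re β₀.im (by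
    intro r hr hrN h1 h2
    have h3 : (r : ℤ) ∣ Nm β₀ := by
      unfold Nm
      exact dvd_add (dvd_add (dvd_pow h1 two_ne_zero) ((h1.mul_left _).mul_right _))
        ((dvd_pow h2 two_ne_zero).mul_left _)
    have h4 : (r : ℤ) ∣ (N : ℤ) := by exact_mod_cast hrN
    have h5 : IsCoprime (Nm β₀) (N : ℤ) := hβ₀
    exact (Nat.prime_iff_prime_int.1 hr).not_isUnit (h5.isUnit_of_dvd' h3 h4))
  have hd : (N : OO k t) ∣ (⟨x, y⟩ : OO k t) - β₀ := by
    rw [nat_dvd_iff, QuadraticAlgebra.re_sub, QuadraticAlgebra.im_sub]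
    exact ⟨hxN, hyN⟩
  have hcN : Cop (⟨x, y⟩ : OO k t) N := by
    refine cop_congr (a := β₀) ?_ hβ₀
    have := (dvd_neg (a := (N : OO k t))).2 hd
    rwa [neg_sub] at this
  refine ⟨⟨x, y⟩, fun h => hx0 (congrArg QuadraticAlgebra.re h), hd, ?_, hxy⟩
  have hcN' : IsCoprime (Nm (⟨x, y⟩ : OO k t)) (N : ℤ) := hcN
  have hcM : IsCoprime (Nm (⟨x, y⟩ : OO k t)) (M : ℤ) := by
    rw [Int.isCoprime_iff_gcd_eq_one]
    refine Nat.coprime_of_dvd fun r hr h1 h2 => ?_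
    have hrp : Prime (r : ℤ) := Nat.prime_iff_prime_int.1 hr
    have h1' : (r : ℤ) ∣ Nm (⟨x, y⟩ : OO k t) := Int.natCast_dvd.2 h1
    rw [Int.natAbs_natCast] at h2
    rcases hM' r hr h2 with h3 | h3
    · have h4 : (r : ℤ) ∣ (N : ℤ) := by exact_mod_cast h3
      exact hrp.not_isUnit (hcN'.isUnit_of_dvd' h1' h4)
    · have h4 : (r : ℤ) ∣ (M' : ℤ) := by exact_mod_cast h3
      have h5 := h4.trans hxM
      have h6 := h4.trans hyM
      have e : Nm (⟨x, y⟩ : OO k t) = (x - 1) * (x + 1) + y * (t * x + k * y) + 1 := by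
        change x ^ 2 + t * x * y + k * y ^ 2 = _
        ring
      rw [e] at h1'
      have h7 : (r : ℤ) ∣ 1 :=
        (dvd_add_right (dvd_add (h5.mul_right (x + 1)) (h6.mul_right (t * x + k * y)))).1 h1'
      exact hrp.not_isUnit (isUnit_of_dvd_one h7)
  change IsCoprime (Nm (⟨x, y⟩ : OO k t)) ((N * M : ℕ) : ℤ)
  push_cast
  exact hcN'.mul_right hcM

end Pool.Agent.DN
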