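import Pool.Agent.Lib.DN.O.Spec

/-!
# Theorem DN, part 0, module O9: norms modulo `N` depend only on the ray class
-/

set_option autoImplicit false

noncomputable section

namespace Pool.Agent.DN

theorem sO9 (h2 : S_O2) (_h6 : S_O6) : S_O9 := by
  intro k t _ N _ a a' _ _ hR
  obtain ⟨α, α', _, _, hα, _, hd, he⟩ := hR
  obtain ⟨_, _, _, hN, hM, _, _, _⟩ := h2 k t
  have h1 : Nm α * (NI a : ℤ) = Nm α' * (NI a' : ℤ) := by
    rw [← hN, ← hN, ← Nat.cast_mul, ← Nat.cast_mul, ← hM, ← hM]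
    exact congrArg (fun I : Ideal (OO k t) => ((NI I : ℕ) : ℤ)) he
  have h3 : (N : ℤ) ∣ Nm α - Nm α' := Nm_congr hd
  have h4 : (N : ℤ) ∣ Nm α * ((NI a : ℤ) - NI a') := by
    have e : Nm α * ((NI a : ℤ) - NI a') = -(Nm α - Nm α') * NI a' := by
      linear_combination h1
    rw [e]
    exact (h3.neg_right).mul_right _
  exact (IsCoprime.symm hα).dvd_of_dvd_mul_left h4

end Pool.Agent.DN
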