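import Pool.Agent.Lib.DN.O.Spec

/-!
# Theorem DN, module O7a: the ray class relation
-/

set_option autoImplicit false

noncomputable section

namespace Pool.Agent.DN

open Pool.Agent.MuZ Pool.Agent.FW NumberField

variable {k t : ℕ}

/-- Units of `O` are `± 1` if `D > 4`. -/
theorem unit_pm [SqN k t] (hD : 4 < Dk k t) (e : OO k t) (he : Nm e = 1) : e = 1 ∨ e = -1 := by
  have h4 := four_Nm e
  have hk := Dk_cast (n := k) (t := t)
  have hD' : (4 : ℤ) < (Dk k t : ℤ) := by exact_mod_cast hD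
  rw [he] at h4
  have him : e.im = 0 := by
    by_contra h0
    have h1 : 1 ≤ e.im ^ 2 := by
      have h3 : 0 < e.im ^ 2 := by positivity
      omega
    nlinarith [sq_nonneg (2 * e.re + t * e.im)]
  rw [him] at h4
  have hre : e.re ^ 2 = 1 := by nlinarith
  rcases sq_eq_one_iff.1 hre with h | h
  · exact Or.inl (ext' (by rw [h, re_one]) (by rw [him, im_one]))
  · exact Or.inr (ext' (by rw [h, QuadraticAlgebra.re_neg, re_one])
      (by rw [him, QuadraticAlgebra.im_neg, im_one, neg_zero]))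

theorem O7a_sp_ne [SqN k t] {v : OO k t} (h : v ≠ 0) : sp v ≠ ⊥ := by
  rwa [Ne, Ideal.span_singleton_eq_bot]

theorem O7a_refl [SqN k t] (N : ℕ) (a : Ideal (OO k t)) : Ray N a a :=
  ⟨1, 1, one_ne_zero, one_ne_zero, cop_one N, cop_one N, by rw [sub_self]; exact dvd_zero _, rfl⟩

theorem O7a_symm {N : ℕ} {a b : Ideal (OO k t)} (h : Ray N a b) : Ray N b a := by
  obtain ⟨α, α', h1, h2, h3, h4, h5, h6⟩ := h
  exact ⟨α', α, h2, h1, h4, h3, by rw [← neg_sub]; exact (dvd_neg).2 h5, h6.symm⟩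

theorem O7a_dvd {n x x' y y' : OO k t} (h : n ∣ x - x') (h' : n ∣ y - y') : n ∣ x * y - x' * y' := by
  have e : x * y - x' * y' = (x - x') * y + x' * (y - y') := by ring
  rw [e]
  exact dvd_add (h.mul_right _) (h'.mul_left _)

theorem O7a_trans [SqN k t] {N : ℕ} {a b c : Ideal (OO k t)} (h : Ray N a b) (h' : Ray N b c) :
    Ray N a c := by
  obtain ⟨α, α', h1, h2, h3, h4, h5, h6⟩ := h
  obtain ⟨β, β', k1, k2, k3, k4, k5, k6⟩ := h'
  refine ⟨α * β, α' * β', mul_ne_zero h1 k1, mul_ne_zero h2 k2, cop_mul h3 k3, cop_mul h4 k4,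
    O7a_dvd h5 k5, ?_⟩
  change Ideal.span {α * β} * a = Ideal.span {α' * β'} * c
  rw [← Ideal.span_singleton_mul_span_singleton, ← Ideal.span_singleton_mul_span_singleton]
  calc Ideal.span {α} * Ideal.span {β} * a = Ideal.span {β} * (Ideal.span {α} * a) := by ring
    _ = Ideal.span {β} * (Ideal.span {α'} * b) := by rw [h6]
    _ = Ideal.span {α'} * (Ideal.span {β} * b) := by ring
    _ = Ideal.span {α'} * (Ideal.span {β'} * c) := by rw [k6]
    _ = Ideal.span {α'} * Ideal.span {β'} * c := by ring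

theorem O7a_mul [SqN k t] {N : ℕ} {a b c d : Ideal (OO k t)} (h : Ray N a b) (h' : Ray N c d) :
    Ray N (a * c) (b * d) := by
  obtain ⟨α, α', h1, h2, h3, h4, h5, h6⟩ := h
  obtain ⟨β, β', k1, k2, k3, k4, k5, k6⟩ := h'
  refine ⟨α * β, α' * β', mul_ne_zero h1 k1, mul_ne_zero h2 k2, cop_mul h3 k3, cop_mul h4 k4,
    O7a_dvd h5 k5, ?_⟩
  change Ideal.span {α * β} * (a * c) = Ideal.span {α' * β'} * (b * d)
  rw [← Ideal.span_singleton_mul_span_singleton, ← Ideal.span_singleton_mul_span_singleton]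
  calc Ideal.span {α} * Ideal.span {β} * (a * c)
      = (Ideal.span {α} * a) * (Ideal.span {β} * c) := by ring
    _ = (Ideal.span {α'} * b) * (Ideal.span {β'} * d) := by rw [h6, k6]
    _ = Ideal.span {α'} * Ideal.span {β'} * (b * d) := by ring

theorem O7a_cancel [SqN k t] {N : ℕ} {a b c : Ideal (OO k t)} (hc : c ≠ ⊥)
    (h : Ray N (a * c) (b * c)) : Ray N a b := by
  obtain ⟨α, α', h1, h2, h3, h4, h5, h6⟩ := h
  refine ⟨α, α', h1, h2, h3, h4, h5, ?_⟩
  rw [← mul_assoc, ← mul_assoc] at h6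
  exact mul_right_cancel₀ (b := c) hc h6

theorem O7a_bot [SqN k t] {N : ℕ} {a b : Ideal (OO k t)} (h : Ray N a b) (ha : a ≠ ⊥) : b ≠ ⊥ := by
  obtain ⟨α, α', h1, h2, h3, h4, h5, h6⟩ := h
  rintro rfl
  rw [Ideal.mul_bot] at h6
  rcases Ideal.mul_eq_bot.1 h6 with h | h
  · exact O7a_sp_ne h1 h
  · exact ha h

theorem O7a_pri [SqN k t] (o6 : S_O6) {N : ℕ} (hN : 0 < N) {a b : Ideal (OO k t)} (h : Ray N a b)
    (ha : PrI a N) : PrI b N := by
  obtain ⟨α, α', h1, h2, h3, h4, h5, h6⟩ := h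
  obtain ⟨c1, -, -, c4, -⟩ := o6 k t
  have h7 : PrI (Ideal.span {α} * a) N := (c1 N _ _).2 ⟨(c4 N α hN).2 h3, ha⟩
  rw [h6] at h7
  exact ((c1 N _ _).1 h7).2

theorem O7a_canc {n : ℕ} {α x : OO k t} (hα : Cop α n) (h : (n : OO k t) ∣ α * x) : (n : OO k t) ∣ x := by
  obtain ⟨b, -, hb⟩ := cop_inv hα
  have e : x = b * (α * x) - (α * b - 1) * x := by ring
  rw [e]
  exact dvd_sub (h.mul_left _) (hb.mul_right _)

theorem O7a_elt [SqN k t] {N : ℕ} {v u : OO k t} (hv : v ≠ 0) (hu : u ≠ 0) (cv : Cop v N)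
    (cu : Cop u N) :
    Ray N (sp v) (sp u) ↔ ∃ e : OO k t, Nm e = 1 ∧ (N : OO k t) ∣ v - e * u := by
  constructor
  · rintro ⟨α, α', h1, h2, h3, h4, h5, h6⟩
    rw [Ideal.span_singleton_mul_span_singleton, Ideal.span_singleton_mul_span_singleton,
      Ideal.span_singleton_eq_span_singleton] at h6
    obtain ⟨e, he⟩ := h6
    have hNe : Nm (e : OO k t) = 1 := by
      have h7 : Nm (e : OO k t) * Nm ((e⁻¹ : (OO k t)ˣ) : OO k t) = 1 := by
        rw [← Nm_mul, Units.mul_inv, Nm_one]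
      exact Int.eq_one_or_neg_one_of_mul_eq_one h7 |>.resolve_right (by
        intro h8
        have := Nm_nonneg (e : OO k t)
        omega)
    refine ⟨cjO (e : OO k t), by rw [Nm_cjO, hNe], ?_⟩
    have hec : (e : OO k t) * cjO (e : OO k t) = 1 := by
      rw [mul_cjO, hNe]
      simp
    apply O7a_canc h3
    have e2 : α * (v - cjO (e : OO k t) * u) = (α - α') * -(cjO (e : OO k t) * u) := by
      linear_combination cjO (e : OO k t) * he - α * v * hec
    rw [e2]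
    exact h5.mul_right _
  · rintro ⟨e, he, h⟩
    have hec : e * cjO e = 1 := by
      rw [mul_cjO, he]
      simp
    have hu1 : IsUnit e := IsUnit.of_mul_eq_one _ hec
    have e3 : sp (e * u) = sp u := Ideal.span_singleton_mul_left_unit hu1 u
    have he0 : e ≠ 0 := hu1.ne_zero
    refine ⟨e * u, v, mul_ne_zero he0 hu, hv, ?_, cv, ?_, ?_⟩
    · unfold Cop at *
      rw [Nm_mul, he, one_mul]
      exact cu
    · rw [← neg_sub]
      exact dvd_neg.2 h
    · rw [e3]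
      exact mul_comm _ _

theorem O7a_inv [SqN k t] (o6 : S_O6) {N : ℕ} (hN : 0 < N) (a : Ideal (OO k t)) (ha : a ≠ ⊥)
    (hp : PrI a N) : ∃ a' : Ideal (OO k t), a' ≠ ⊥ ∧ PrI a' N ∧ Ray N (a * a') ⊤ := by
  obtain ⟨c1, -, -, c4, c5⟩ := o6 k t
  obtain ⟨v, hva, hv0, hv1⟩ := c5 N a hN ha hp
  have hdv : a ∣ sp v := Ideal.dvd_iff_le.2 ((Ideal.span_singleton_le_iff_mem a).2 hva)
  obtain ⟨a', ha'⟩ := hdv
  have cv : Cop v N := cop_congr (by rw [← neg_sub]; exact dvd_neg.2 hv1) (cop_one N)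
  refine ⟨a', ?_, ?_, ?_⟩
  · rintro rfl
    rw [Ideal.mul_bot] at ha'
    exact O7a_sp_ne hv0 ha'
  · have h1 : PrI (sp v) N := (c4 N v hN).2 cv
    rw [ha'] at h1
    exact ((c1 N _ _).1 h1).2
  · rw [← ha']
    refine ⟨1, v, one_ne_zero, hv0, cop_one N, cv, ?_, ?_⟩
    · rw [← neg_sub]
      exact dvd_neg.2 hv1
    · change Ideal.span {1} * sp v = sp v * ⊤
      rw [Ideal.span_singleton_one, Ideal.mul_top, Ideal.top_mul]

set_option linter.unusedVariables false in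
/-- **O7a**: the ray class relation. -/
theorem sO7a (h2 : S_O2) (h6 : S_O6) : S_O7a := by
  intro k t _ N hN
  refine ⟨O7a_refl N, fun a b h => O7a_symm h, fun a b c h h' => O7a_trans h h',
    fun a b c d h h' => O7a_mul h h', fun a b c hc _ h => O7a_cancel hc h,
    fun a b h => ⟨⟨O7a_bot h, O7a_bot (O7a_symm h)⟩, ⟨O7a_pri h6 hN h, O7a_pri h6 hN (O7a_symm h)⟩⟩,
    ?_, fun v u hv hu cv cu => O7a_elt hv hu cv cu, fun a ha hp => O7a_inv h6 hN a ha hp⟩
  rintro M a b hM ⟨α, α', h1, h2, h3, h4, h5, h6⟩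
  refine ⟨α, α', h1, h2, cop_dvd h3 hM, cop_dvd h4 hM, ?_, h6⟩
  obtain ⟨c, rfl⟩ := hM
  refine (Dvd.intro (c : OO k t) ?_).trans h5
  push_cast
  rfl

end Pool.Agent.DN
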